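import Pool.Agent.TH29.DL.Cone

/-!
# The area of a convex set that contains two segments
-/

namespace Pool.Agent.TH29.DL

open MeasureTheory Set
open scoped ENNReal Pointwise

abbrev P2 := Fin 2 → ℝ

/-- the cross product -/
def cr (a b : P2) : ℝ := a 0 * b 1 - a 1 * b 0

/-- a convex set containing `[p,q]` and `[r,s]` has area at least `|(q-p) × (s-r)|/2` -/
theorem area_cross (X : Set P2) (hX : Convex ℝ X) (hXc : IsCompact X) {p q r s : P2}
    (hp : p ∈ X) (hq : q ∈ X) (hr : r ∈ X) (hs : s ∈ X) :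
    ENNReal.ofReal (|cr (q - p) (s - r)| / 2) ≤ volume X := by
  by_cases hD : cr (q - p) (s - r) = 0
  · rw [hD]; simp
  set a := q - p with ha
  set b := s - r with hb
  set D := cr a b with hDdef
  -- the matrix with columns b, a
  set M : Matrix (Fin 2) (Fin 2) ℝ := !![b 0, a 0; b 1, a 1] with hM
  have hdet : M.det = -D := by
    rw [hM, Matrix.det_fin_two_of, hDdef, cr]; ring
  have hdet0 : M.det ≠ 0 := by rw [hdet]; exact neg_ne_zero.2 hD
  set C : Set (ℝ × ℝ) := {z | p + z.1 • b + z.2 • a ∈ X} with hC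
  have hCconv : Convex ℝ C := by
    intro x hx y hy α β hα hβ hαβ
    have := hX hx hy hα hβ hαβ
    show p + (α • x + β • y).1 • b + (α • x + β • y).2 • a ∈ X
    convert this using 1
    have e : p = α • p + β • p := by rw [← add_smul, hαβ, one_smul]
    conv_lhs => rw [e]
    ext i
    simp [smul_add, add_smul]
    ring
  have hCcl : IsClosed C := by
    have : Continuous (fun z : ℝ × ℝ => p + z.1 • b + z.2 • a) := by fun_prop
    exact hXc.isClosed.preimage this
  have hCm : MeasurableSet C := hCcl.measurableSet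
  -- the volume of C
  have hvol : volume X = ENNReal.ofReal |D| * volume C := by
    have h1 : volume C = volume ((fun z : P2 => (z 0, z 1)) ⁻¹' C) := by
      have := (volume_preserving_finTwoArrow ℝ).measure_preimage hCm.nullMeasurableSet
      rw [← this]
      rfl
    have h2 : (fun z : P2 => (z 0, z 1)) ⁻¹' C = Matrix.toLin' M ⁻¹' ((fun x => p + x) ⁻¹' X) := by
      ext z
      simp only [mem_preimage, hC, mem_setOf_eq]
      have : p + z 0 • b + z 1 • a = p + Matrix.toLin' M z := by
        rw [add_assoc]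
        congr 1
        ext i
        fin_cases i
        · simp [hM, Matrix.toLin'_apply, Matrix.mulVec, dotProduct, Fin.sum_univ_two]; ring
        · simp [hM, Matrix.toLin'_apply, Matrix.mulVec, dotProduct, Fin.sum_univ_two]; ring
      rw [this]
    have h3 : volume (Matrix.toLin' M ⁻¹' ((fun x => p + x) ⁻¹' X))
        = ENNReal.ofReal |M.det⁻¹| * volume ((fun x => p + x) ⁻¹' X) := by
      have hmp := Real.map_matrix_volume_pi_eq_smul_volume_pi hdet0
      have hmeas : MeasurableSet ((fun x : P2 => p + x) ⁻¹' X) :=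
        (measurable_const_add p) hXc.measurableSet
      have hcont : Measurable (Matrix.toLin' M) := (LinearMap.continuous_of_finiteDimensional _).measurable
      rw [← Measure.map_apply hcont hmeas, hmp]
      rfl
    rw [h1, h2, h3, measure_preimage_add, ← mul_assoc, ← ENNReal.ofReal_mul (abs_nonneg _), hdet,
      abs_inv, abs_neg, mul_inv_cancel₀ (abs_ne_zero.2 hD), ENNReal.ofReal_one, one_mul]
  -- coordinates of r
  set t := cr a (r - p) / D with ht
  set u := cr (r - p) b / D with hu
  have hrr : p + t • b + u • a = r := by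
    ext i
    have h1 : t * D = cr a (r - p) := by rw [ht]; field_simp
    have h2 : u * D = cr (r - p) b := by rw [hu]; field_simp
    have h3 : D * (p i + t * b i + u * a i) = D * r i := by
      have : D * (p i + t * b i + u * a i) = D * p i + (t * D) * b i + (u * D) * a i := by ring
      rw [this, h1, h2, hDdef]
      fin_cases i <;> simp [cr] <;> ring
    have h4 := mul_left_cancel₀ hD h3
    simpa using h4
  have hss : p + (t + 1) • b + u • a = s := by
    have : p + (t + 1) • b + u • a = (p + t • b + u • a) + b := by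
      rw [add_smul, one_smul]; abel
    rw [this, hrr, hb]; abel
  have hrC : (t, u) ∈ C := by show p + t • b + u • a ∈ X; rw [hrr]; exact hr
  have hsC : (t + 1, u) ∈ C := by show p + (t + 1) • b + u • a ∈ X; rw [hss]; exact hs
  have h0C : ((0 : ℝ), (0 : ℝ)) ∈ C := by show p + (0:ℝ) • b + (0:ℝ) • a ∈ X; simpa using hp
  have h1C : ((0 : ℝ), (1 : ℝ)) ∈ C := by
    show p + (0:ℝ) • b + (1:ℝ) • a ∈ X
    have : p + (0:ℝ) • b + (1:ℝ) • a = q := by rw [ha]; simp
    rw [this]; exact hq
  have hsl : 1 ≤ volume (sl C 0) := by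
    have : Icc (0 : ℝ) 1 ⊆ sl C 0 := by
      intro v hv
      have := hCconv h0C h1C (by linarith [hv.2] : (0 : ℝ) ≤ 1 - v) hv.1 (by ring)
      show ((0 : ℝ), v) ∈ C
      convert this using 1
      ext <;> simp
    calc (1 : ℝ≥0∞) = volume (Icc (0 : ℝ) 1) := by simp
      _ ≤ _ := measure_mono this
  -- the cone lemma
  have hcone : ∃ p' q' : ℝ, p' ≤ 0 ∧ 0 ≤ q' ∧ 1 ≤ q' - p' ∧ (∃ x, (p', x) ∈ C) ∧ ∃ y, (q', y) ∈ C := by
    rcases le_or_gt t 0 with h | h
    · rcases le_or_gt 0 (t + 1) with h' | h'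
      · exact ⟨t, t + 1, h, h', by linarith, ⟨u, hrC⟩, ⟨u, hsC⟩⟩
      · exact ⟨t, 0, h, le_rfl, by linarith, ⟨u, hrC⟩, ⟨0, h0C⟩⟩
    · exact ⟨0, t + 1, le_rfl, by linarith, by linarith, ⟨0, h0C⟩, ⟨u, hsC⟩⟩
  obtain ⟨p', q', hp', hq', hpq, ⟨x, hx⟩, ⟨y, hy⟩⟩ := hcone
  have hfin := cone (volume : Measure ℝ) C hCconv hCm p' 0 q' hp' hq' x y hx hy
  have hV : ENNReal.ofReal (1 / 2) ≤ volume C := by
    refine le_trans ?_ hfin
    calc ENNReal.ofReal (1 / 2) = ENNReal.ofReal (1 / 2) * 1 := (mul_one _).symm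
      _ ≤ _ := by
        refine mul_le_mul' (ENNReal.ofReal_le_ofReal ?_) hsl
        simp only [Module.finrank_self, Nat.cast_one]
        linarith
  rw [hvol]
  calc ENNReal.ofReal (|D| / 2) = ENNReal.ofReal |D| * ENNReal.ofReal (1 / 2) := by
        rw [← ENNReal.ofReal_mul (abs_nonneg _)]; congr 1; ring
    _ ≤ _ := by gcongr

end Pool.Agent.TH29.DL
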