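import Pool.Agent.TH29.DL.Sect

/-!
# The choice of the two heights
-/

namespace Pool.Agent.TH29.DL

open MeasureTheory Set
open scoped ENNReal

theorem choose_heights (f : ℝ → ℝ≥0∞) {z0 z1 tm D : ℝ} (V : ℝ≥0∞) (hD : 0 < D) (hz : z0 < z1)
    (h0 : z0 ≤ tm) (h1 : tm ≤ z1) (hm : ENNReal.ofReal (D / 2) ≤ f tm)
    (hV1 : ENNReal.ofReal ((z1 - z0) * D / 6) ≤ V)
    (hV2 : ∀ a b : ℝ, z0 ≤ a → a ≤ tm → tm ≤ b → b ≤ z1 → ENNReal.ofReal (D / 4) ≤ f a →
      ENNReal.ofReal (D / 4) ≤ f b → ENNReal.ofReal (0.336 * (b - a) * D) ≤ V) :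
    ∃ t t' : ℝ, z0 ≤ t ∧ t' ≤ z1 ∧ (z1 - z0) / 2 ≤ t' - t ∧
      (t = z0 ∨ f t < ENNReal.ofReal (D / 4)) ∧ (t' = z1 ∨ f t' < ENNReal.ofReal (D / 4)) ∧
      ENNReal.ofReal (2 * (t' - t) * D) ≤ 6 * V := by
  set B : Set ℝ := {t | z0 ≤ t ∧ t ≤ z1 ∧ ENNReal.ofReal (D / 4) ≤ f t} with hB
  have htm : tm ∈ B := ⟨h0, h1, le_trans (ENNReal.ofReal_le_ofReal (by linarith)) hm⟩
  have hne : B.Nonempty := ⟨tm, htm⟩
  have hbb : BddBelow B := ⟨z0, fun x hx => hx.1⟩
  have hba : BddAbove B := ⟨z1, fun x hx => hx.2.1⟩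
  set α := sInf B with hα
  set β := sSup B with hβ
  have hαm : α ≤ tm := csInf_le hbb htm
  have hβm : tm ≤ β := le_csSup hba htm
  have hα0 : z0 ≤ α := le_csInf hne fun x hx => hx.1
  have hβ1 : β ≤ z1 := csSup_le hne fun x hx => hx.2.1
  have hlo : ∀ t, z0 ≤ t → t ≤ z1 → t < α → f t < ENNReal.ofReal (D / 4) := by
    intro t ht0 ht1 ht
    by_contra hcon
    exact absurd (csInf_le hbb (show t ∈ B from ⟨ht0, ht1, not_lt.1 hcon⟩)) (not_le.2 ht)
  have hhi : ∀ t, z0 ≤ t → t ≤ z1 → β < t → f t < ENNReal.ofReal (D / 4) := by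
    intro t ht0 ht1 ht
    by_contra hcon
    exact absurd (le_csSup hba (show t ∈ B from ⟨ht0, ht1, not_lt.1 hcon⟩)) (not_le.2 ht)
  have h6 : ∀ x y : ℝ, x ≤ 6 * y → ENNReal.ofReal y ≤ V → ENNReal.ofReal x ≤ 6 * V := by
    intro x y hxy hy
    calc ENNReal.ofReal x ≤ ENNReal.ofReal (6 * y) := ENNReal.ofReal_le_ofReal hxy
      _ = 6 * ENNReal.ofReal y := by
        rw [ENNReal.ofReal_mul (by norm_num)]; norm_num
      _ ≤ 6 * V := by gcongr
  rcases lt_or_ge (β - α) ((z1 - z0) / 2) with hcase | hcase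
  · -- a pair at distance exactly (z1 - z0)/2
    have hex : ∃ t : ℝ, z0 ≤ t ∧ t + (z1 - z0) / 2 ≤ z1 ∧ (t = z0 ∨ t < α) ∧
        (t + (z1 - z0) / 2 = z1 ∨ β < t + (z1 - z0) / 2) := by
      rcases hα0.eq_or_lt with h | h
      · exact ⟨z0, le_rfl, by linarith, Or.inl rfl, Or.inr (by linarith)⟩
      rcases hβ1.eq_or_lt with h' | h'
      · exact ⟨z1 - (z1 - z0) / 2, by linarith, by linarith, Or.inr (by linarith),
          Or.inl (by ring)⟩
      · obtain ⟨t, ht1, ht2⟩ := exists_between (show max (β - (z1 - z0) / 2) z0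
            < min α (z1 - (z1 - z0) / 2) by
          apply max_lt <;> apply lt_min <;> linarith)
        have a1 := (max_lt_iff.1 ht1).1
        have a2 := (max_lt_iff.1 ht1).2
        have a3 := (lt_min_iff.1 ht2).1
        have a4 := (lt_min_iff.1 ht2).2
        exact ⟨t, a2.le, by linarith, Or.inr a3, Or.inr (by linarith)⟩
    obtain ⟨t, ht0, ht1, ht2, ht3⟩ := hex
    refine ⟨t, t + (z1 - z0) / 2, ht0, ht1, by linarith, ?_, ?_, ?_⟩
    · rcases ht2 with h | h
      · exact Or.inl h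
      · exact Or.inr (hlo t ht0 (by linarith) h)
    · rcases ht3 with h | h
      · exact Or.inl h
      · exact Or.inr (hhi _ (by linarith) ht1 h)
    · refine h6 _ _ (le_of_eq ?_) hV1
      ring
  · set ε := (z1 - z0) / 2000 with hε
    have hε0 : 0 < ε := by rw [hε]; linarith
    refine ⟨max (α - ε) z0, min (β + ε) z1, le_max_right _ _, min_le_right _ _, ?_, ?_, ?_, ?_⟩
    · have a1 : max (α - ε) z0 ≤ α := max_le (by linarith) hα0
      have a2 : β ≤ min (β + ε) z1 := le_min (by linarith) hβ1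
      linarith
    · rcases le_or_gt (α - ε) z0 with h | h
      · exact Or.inl (max_eq_right h)
      · right
        rw [max_eq_left h.le]
        exact hlo _ h.le (by linarith) (by linarith)
    · rcases le_or_gt z1 (β + ε) with h | h
      · exact Or.inl (min_eq_right h)
      · right
        rw [min_eq_left h.le]
        exact hhi _ (by linarith) h.le (by linarith)
    · obtain ⟨x, hx, hxα⟩ := exists_lt_of_csInf_lt hne (show sInf B < α + ε by linarith)
      obtain ⟨y, hy, hyβ⟩ := exists_lt_of_lt_csSup hne (show β - ε < sSup B by linarith)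
      have hmin : ENNReal.ofReal (D / 4) ≤ f (min x tm) := by
        rcases min_choice x tm with h | h <;> rw [h]
        · exact hx.2.2
        · exact htm.2.2
      have hmax : ENNReal.ofReal (D / 4) ≤ f (max y tm) := by
        rcases max_choice y tm with h | h <;> rw [h]
        · exact hy.2.2
        · exact htm.2.2
      have hV := hV2 (min x tm) (max y tm) (le_min hx.1 h0) (min_le_right _ _) (le_max_right _ _)
        (max_le hy.2.1 h1) hmin hmax
      refine h6 _ _ ?_ hV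
      have a1 : min x tm ≤ α + ε := (min_le_left _ _).trans hxα.le
      have a2 : β - ε ≤ max y tm := hyβ.le.trans (le_max_left _ _)
      have a3 : α - ε ≤ max (α - ε) z0 := le_max_left _ _
      have a4 : min (β + ε) z1 ≤ β + ε := min_le_left _ _
      have a5 : 2 * (min (β + ε) z1 - max (α - ε) z0) ≤ 6 * (0.336 * (max y tm - min x tm)) := by
        nlinarith
      nlinarith

end Pool.Agent.TH29.DL
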