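import Mathlib

/-!
# Volume of a convex body from one section and its height
-/

namespace Pool.Agent.TH29.DL

open MeasureTheory Set
open scoped ENNReal Pointwise

/-- a lower bound of an integral by an antiderivative -/
theorem lint_ge {a b : ℝ} (hab : a ≤ b) (F g : ℝ → ℝ)
    (hF : ∀ t ∈ Icc a b, HasDerivAt F (g t) t) (hg : Continuous g)
    (hg0 : ∀ t ∈ Ioo a b, 0 ≤ g t)
    (f : ℝ → ℝ≥0∞) (hf : ∀ t ∈ Ioo a b, ENNReal.ofReal (g t) ≤ f t) :
    ENNReal.ofReal (F b - F a) ≤ ∫⁻ t in Ioo a b, f t := by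
  have hF' : ∀ t ∈ uIcc a b, HasDerivAt F (g t) t := by
    rwa [uIcc_of_le hab]
  have h1 : ∫ t in a..b, g t = F b - F a :=
    intervalIntegral.integral_eq_sub_of_hasDerivAt hF' (hg.intervalIntegrable a b)
  rw [← h1, intervalIntegral.integral_of_le hab, integral_Ioc_eq_integral_Ioo]
  rw [ofReal_integral_eq_lintegral_ofReal]
  · exact setLIntegral_mono' measurableSet_Ioo hf
  · exact (hg.integrableOn_Icc (a := a) (b := b)).mono_set Ioo_subset_Icc_self
  · exact (ae_restrict_iff' measurableSet_Ioo).2 (Filter.Eventually.of_forall hg0)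

variable {E : Type*} [NormedAddCommGroup E] [NormedSpace ℝ E] [MeasurableSpace E] [BorelSpace E]
  [FiniteDimensional ℝ E] (μ : Measure E) [μ.IsAddHaarMeasure]

/-- the section at height `t` -/
def sl (C : Set (ℝ × E)) (t : ℝ) : Set E := {x | (t, x) ∈ C}

/-- half of the cone lemma: the part between a point at height `p` and the section at height `t` -/
theorem cone_half (C : Set (ℝ × E)) (hC : Convex ℝ C) (p t0 : ℝ) (hpt : p < t0) (x0 : E)
    (hx0 : (p, x0) ∈ C) :
    ENNReal.ofReal ((t0 - p) / (Module.finrank ℝ E + 1)) * μ (sl C t0)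
      ≤ ∫⁻ t in Ioo p t0, μ (sl C t) := by
  set d := Module.finrank ℝ E with hd
  have hL : 0 < t0 - p := by linarith
  -- sections contain scaled copies
  have hsec : ∀ t ∈ Ioo p t0, ENNReal.ofReal (((t - p) / (t0 - p)) ^ d) * μ (sl C t0)
      ≤ μ (sl C t) := by
    intro t ht
    set θ := (t - p) / (t0 - p) with hθ
    have hθ0 : 0 < θ := div_pos (by linarith [ht.1]) hL
    have hθ1 : θ < 1 := by rw [hθ, div_lt_one hL]; linarith [ht.2]
    have hsub : (fun y => (1 - θ) • x0 + y) '' (θ • sl C t0) ⊆ sl C t := by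
      rintro _ ⟨_, ⟨y, hy, rfl⟩, rfl⟩
      have h := hC hx0 (show (t0, y) ∈ C from hy) (by linarith : (0:ℝ) ≤ 1 - θ) hθ0.le (by ring)
      have e : (1 - θ) • (p, x0) + θ • (t0, y) = (t, (1 - θ) • x0 + θ • y) := by
        ext
        · simp only [Prod.smul_mk, Prod.mk_add_mk, smul_eq_mul]
          have : θ * (t0 - p) = t - p := by rw [hθ]; field_simp
          nlinarith
        · simp
      rw [e] at h
      exact h
    calc ENNReal.ofReal (θ ^ d) * μ (sl C t0) = μ (θ • sl C t0) := by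
          rw [Measure.addHaar_smul, abs_of_pos (pow_pos hθ0 _)]
      _ = μ ((fun y => (1 - θ) • x0 + y) '' (θ • sl C t0)) := by
          rw [image_add_left, measure_preimage_add]
      _ ≤ _ := measure_mono hsub
  by_cases hz : μ (sl C t0) = ∞
  · rw [hz]
    have h1 : ∀ t ∈ Ioo p t0, (∞ : ℝ≥0∞) ≤ μ (sl C t) := by
      intro t ht
      refine le_trans ?_ (hsec t ht)
      rw [hz, ENNReal.mul_top]
      simp only [ne_eq, ENNReal.ofReal_eq_zero, not_le]
      exact pow_pos (div_pos (by linarith [ht.1]) hL) _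
    refine le_trans ?_ (setLIntegral_mono' measurableSet_Ioo h1)
    rw [setLIntegral_const, Real.volume_Ioo, ENNReal.top_mul]
    · exact le_top
    · simp only [ne_eq, ENNReal.ofReal_eq_zero, not_le]; linarith
  · set M := (μ (sl C t0)).toReal with hM
    have hM0 : 0 ≤ M := ENNReal.toReal_nonneg
    have hMe : μ (sl C t0) = ENNReal.ofReal M := (ENNReal.ofReal_toReal hz).symm
    have key := lint_ge hpt.le (fun t => M * ((t - p) ^ (d + 1) / ((d + 1) * (t0 - p) ^ d)))
      (fun t => M * ((t - p) / (t0 - p)) ^ d) ?_ ?_ ?_ (fun t => μ (sl C t)) ?_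
    · rw [hMe, ← ENNReal.ofReal_mul (by positivity)]
      refine le_trans (le_of_eq ?_) key
      congr 1
      have : (t0 - p) ^ d ≠ 0 := by positivity
      have hd1 : ((d : ℝ) + 1) ≠ 0 := by positivity
      rw [sub_self, zero_pow (Nat.succ_ne_zero d), zero_div, mul_zero, sub_zero, pow_succ]
      field_simp
    · intro t _
      have h1 : HasDerivAt (fun t : ℝ => (t - p) ^ (d + 1)) (((d + 1 : ℕ) : ℝ) * (t - p) ^ d) t := by
        have h2 := ((hasDerivAt_id t).sub_const p).fun_pow (d + 1)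
        simpa using h2
      have h3 := (h1.div_const (((d : ℝ) + 1) * (t0 - p) ^ d)).const_mul M
      refine h3.congr_deriv ?_
      have : (t0 - p) ^ d ≠ 0 := by positivity
      have hd1 : ((d : ℝ) + 1) ≠ 0 := by positivity
      push_cast
      rw [div_pow]
      field_simp
    · fun_prop
    · intro t ht
      have : 0 < t - p := by linarith [ht.1]
      positivity
    · intro t ht
      have := hsec t ht
      rw [hMe, ← ENNReal.ofReal_mul (pow_nonneg (div_nonneg (by linarith [ht.1]) hL.le) _)] at this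
      rwa [mul_comm] at this

/-- change of variable `t ↦ -t` -/
theorem lint_neg (a b : ℝ) (f : ℝ → ℝ≥0∞) :
    ∫⁻ t in Ioo (-b) (-a), f (-t) = ∫⁻ t in Ioo a b, f t := by
  have h := (Measure.measurePreserving_neg (volume : Measure ℝ)).setLIntegral_comp_preimage_emb
    (MeasurableEquiv.neg ℝ).measurableEmbedding f (Ioo a b)
  rw [← h]
  congr 2
  ext t
  simp only [mem_Ioo, mem_preimage]
  constructor
  · rintro ⟨h1, h2⟩; constructor <;> linarith
  · rintro ⟨h1, h2⟩; constructor <;> linarith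

/-- the other half of the cone lemma -/
theorem cone_half' (C : Set (ℝ × E)) (hC : Convex ℝ C) (q t0 : ℝ) (hqt : t0 < q) (x0 : E)
    (hx0 : (q, x0) ∈ C) :
    ENNReal.ofReal ((q - t0) / (Module.finrank ℝ E + 1)) * μ (sl C t0)
      ≤ ∫⁻ t in Ioo t0 q, μ (sl C t) := by
  have hC' : Convex ℝ {z : ℝ × E | (-z.1, z.2) ∈ C} := by
    intro x hx y hy a b ha hb hab
    have := hC hx hy ha hb hab
    show (-(a • x + b • y).1, (a • x + b • y).2) ∈ C
    convert this using 1
    ext
    · simp; ring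
    · simp
  have h := cone_half μ {z : ℝ × E | (-z.1, z.2) ∈ C} hC' (-q) (-t0) (by linarith) x0
    (by simpa using hx0)
  have e : ∀ t, sl {z : ℝ × E | (-z.1, z.2) ∈ C} t = sl C (-t) := by
    intro t; ext x; simp [sl]
  simp only [e, neg_neg] at h
  rw [lint_neg t0 q (fun t => μ (sl C t))] at h
  rwa [show -t0 - -q = q - t0 by ring] at h

theorem prod_ge (C : Set (ℝ × E)) (hCm : MeasurableSet C) (p t0 q : ℝ) (hp : p ≤ t0) (hq : t0 ≤ q) :
    (∫⁻ t in Ioo p t0, μ (sl C t)) + ∫⁻ t in Ioo t0 q, μ (sl C t)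
      ≤ ((volume : Measure ℝ).prod μ) C := by
  rw [Measure.prod_apply hCm]
  have hd : Disjoint (Ioo p t0) (Ioo t0 q) := by
    rw [Set.disjoint_left]; rintro x ⟨_, h1⟩ ⟨h2, _⟩; linarith
  rw [← lintegral_union measurableSet_Ioo hd]
  exact setLIntegral_le_lintegral _ _

/-- the cone lemma -/
theorem cone (C : Set (ℝ × E)) (hC : Convex ℝ C) (hCm : MeasurableSet C) (p t0 q : ℝ)
    (hp : p ≤ t0) (hq : t0 ≤ q) (x y : E) (hx : (p, x) ∈ C) (hy : (q, y) ∈ C) :
    ENNReal.ofReal ((q - p) / (Module.finrank ℝ E + 1)) * μ (sl C t0)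
      ≤ ((volume : Measure ℝ).prod μ) C := by
  refine le_trans ?_ (prod_ge μ C hCm p t0 q hp hq)
  have h1 : ENNReal.ofReal ((t0 - p) / (Module.finrank ℝ E + 1)) * μ (sl C t0)
      ≤ ∫⁻ t in Ioo p t0, μ (sl C t) := by
    rcases hp.eq_or_lt with rfl | h
    · simp
    · exact cone_half μ C hC p t0 h x hx
  have h2 : ENNReal.ofReal ((q - t0) / (Module.finrank ℝ E + 1)) * μ (sl C t0)
      ≤ ∫⁻ t in Ioo t0 q, μ (sl C t) := by
    rcases hq.eq_or_lt with rfl | h
    · simp
    · exact cone_half' μ C hC q t0 h y hy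
  refine le_trans (le_of_eq ?_) (add_le_add h1 h2)
  rw [← add_mul, ← ENNReal.ofReal_add (by apply div_nonneg <;> [linarith; positivity])
    (by apply div_nonneg <;> [linarith; positivity]), ← add_div]
  congr 3
  ring

end Pool.Agent.TH29.DL
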