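import Pool.Agent.TH29.DL.Area

/-!
# A set of small area misses a translate of a lattice
-/

namespace Pool.Agent.TH29.DL

open MeasureTheory Set
open scoped ENNReal Pointwise

/-- a planar set of area less than the covolume misses a translate of the lattice -/
theorem exists_free (b : Module.Basis (Fin 2) ℝ P2) (X : Set P2)
    (h : volume X < ENNReal.ofReal |(Matrix.of b).det|) :
    ∃ c : P2, ∀ m n : ℤ, c + (m : ℝ) • b 0 + (n : ℝ) • b 1 ∉ X := by
  classical
  by_contra hcon
  push Not at hcon
  have : Countable (Submodule.span ℤ (Set.range b)).toAddSubgroup :=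
    inferInstanceAs (Countable (Submodule.span ℤ (Set.range b)))
  set F := ZSpan.fundamentalDomain b with hF
  have hfd := ZSpan.isAddFundamentalDomain' b (volume : Measure P2)
  have hX := hfd.measure_eq_tsum X
  have hsub : F ⊆ ⋃ g : (Submodule.span ℤ (Set.range b)).toAddSubgroup, ((g +ᵥ X) ∩ F) := by
    intro c hc
    obtain ⟨m, n, hmn⟩ := hcon c
    have hmem : -((m : ℝ) • b 0 + (n : ℝ) • b 1) ∈ (Submodule.span ℤ (Set.range b)).toAddSubgroup := by
      apply neg_mem
      apply add_mem
      · show (m : ℝ) • b 0 ∈ Submodule.span ℤ (Set.range b)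
        rw [Int.cast_smul_eq_zsmul]
        exact Submodule.smul_mem _ _ (Submodule.subset_span ⟨0, rfl⟩)
      · show (n : ℝ) • b 1 ∈ Submodule.span ℤ (Set.range b)
        rw [Int.cast_smul_eq_zsmul]
        exact Submodule.smul_mem _ _ (Submodule.subset_span ⟨1, rfl⟩)
    rw [mem_iUnion]
    refine ⟨⟨_, hmem⟩, ?_, hc⟩
    rw [mem_vadd_set]
    refine ⟨_, hmn, ?_⟩
    show -((m : ℝ) • b 0 + (n : ℝ) • b 1) + (c + (m : ℝ) • b 0 + (n : ℝ) • b 1) = c
    abel
  have h1 : volume F ≤ volume X := by
    rw [hX]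
    exact (measure_mono hsub).trans (measure_iUnion_le _)
  rw [hF, ZSpan.volume_fundamentalDomain] at h1
  exact absurd h1 (not_le.2 h)

end Pool.Agent.TH29.DL
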