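import Mathlib

/-!
# A lattice avoiding the interior of a symmetric convex disc
-/

namespace Pool.Agent.TH29.DL

open Set

/-- the half-length lattice of a planar symmetric convex body -/
theorem planar (S : Set (ℝ × ℝ)) (hS : IsCompact S) (hc : Convex ℝ S) (hsym : ∀ p ∈ S, -p ∈ S)
    (h0 : (0 : ℝ × ℝ) ∈ interior S) :
    ∃ l w s : ℝ, 0 < l ∧ 0 < w ∧ (l, (0 : ℝ)) ∈ S ∧ (s, w) ∈ S ∧ (s - l, w) ∈ S ∧
      ∀ i j : ℤ, ¬ (i = 0 ∧ j = 0) → ((i : ℝ) * l + j * s, (j : ℝ) * w) ∉ interior S := by
  -- a small square in S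
  obtain ⟨δ, hδ, hball⟩ := Metric.isOpen_iff.1 isOpen_interior 0 h0
  have hsmall : ∀ x y : ℝ, |x| < δ → |y| < δ → (x, y) ∈ interior S := by
    intro x y hx hy
    apply hball
    rw [Metric.mem_ball, dist_zero_right, Prod.norm_def]
    exact max_lt hx hy
  -- the longest horizontal vector
  have hA : IsCompact {x : ℝ × ℝ | x ∈ S ∧ x.2 = 0} :=
    hS.inter_right (isClosed_eq continuous_snd continuous_const)
  obtain ⟨z, hz, hzmax⟩ := hA.exists_isMaxOn ⟨0, interior_subset h0, rfl⟩
    (continuous_fst (X := ℝ) (Y := ℝ)).continuousOn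
  obtain ⟨l, z2⟩ := z
  have hz2 : z2 = 0 := hz.2
  subst hz2
  have hlS : (l, (0 : ℝ)) ∈ S := hz.1
  have hlmax : ∀ x : ℝ, (x, (0 : ℝ)) ∈ S → x ≤ l := fun x hx => hzmax ⟨hx, rfl⟩
  have hl : 0 < l := by
    have := hlmax (δ / 2) (interior_subset (hsmall _ _ (by rw [abs_of_pos] <;> linarith)
      (by simpa using hδ)))
    linarith
  -- the highest pair of points at distance l
  have hB : IsCompact {x : ℝ × ℝ | x ∈ S ∧ (x.1 - l, x.2) ∈ S} := by
    apply hS.inter_right
    exact hS.isClosed.preimage (by fun_prop)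
  obtain ⟨y, hy, hymax⟩ := hB.exists_isMaxOn
    ⟨(l, 0), hlS, by
      show (l - l, (0 : ℝ)) ∈ S
      rw [sub_self]; exact interior_subset h0⟩
    (continuous_snd (X := ℝ) (Y := ℝ)).continuousOn
  obtain ⟨s, w⟩ := y
  have hsw : (s, w) ∈ S := hy.1
  have hsw' : (s - l, w) ∈ S := hy.2
  have hwmax : ∀ x v : ℝ, (x, v) ∈ S → (x - l, v) ∈ S → v ≤ w := fun x v h1 h2 => hymax ⟨h1, h2⟩
  have hnegl : (-l, (0 : ℝ)) ∈ S := by
    have := hsym _ hlS
    simpa using this
  have hw : 0 < w := by
    have h1 : (0, δ / 2) ∈ S := interior_subset (hsmall _ _ (by simpa using hδ)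
      (by rw [abs_of_pos] <;> linarith))
    have h2 := hc h1 hlS (by norm_num : (0:ℝ) ≤ 1/2) (by norm_num : (0:ℝ) ≤ 1/2) (by norm_num)
    have h3 := hc h1 hnegl (by norm_num : (0:ℝ) ≤ 1/2) (by norm_num : (0:ℝ) ≤ 1/2) (by norm_num)
    have := hwmax (l / 2) (δ / 4) (by convert h2 using 1; ext <;> simp <;> ring)
      (by convert h3 using 1; ext <;> simp <;> ring)
    linarith
  -- two points at distance at least l at a height at least w, one of them interior: impossible
  have key : ∀ x x' v : ℝ, w ≤ v → (x, v) ∈ interior S → (x', v) ∈ S → l ≤ |x - x'| → False := by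
    intro x x' v hv hx hx' hd
    obtain ⟨ε, hε, hb⟩ := Metric.isOpen_iff.1 isOpen_interior _ hx
    have hnear : ∀ a c : ℝ, |a| < ε → |c| < ε → (x + a, v + c) ∈ S := by
      intro a c ha hc'
      apply interior_subset
      apply hb
      rw [Metric.mem_ball, dist_eq_norm, Prod.norm_def]
      simpa using ⟨ha, hc'⟩
    -- chord at height v + θ ε/2
    have hgo : ∀ σ : ℝ, (σ = 1 ∨ σ = -1) → 0 ≤ σ * (x - x') → False := by
      intro σ hσ hσx
      have hσ2 : σ * σ = 1 := by rcases hσ with rfl | rfl <;> norm_num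
      have habs : |x - x'| = σ * (x - x') := by
        rcases hσ with rfl | rfl
        · rw [one_mul] at hσx ⊢; exact abs_of_nonneg hσx
        · rw [abs_of_nonpos (by linarith)]; ring
      rw [habs] at hd
      set L := σ * (x - x') with hL
      have hL0 : 0 < L := lt_of_lt_of_le hl hd
      set θ := min (1/2) (ε / (4 * (L + ε))) with hθ
      have hLε : 0 < L + ε := by linarith
      have hθ0 : 0 < θ := lt_min (by norm_num) (by positivity)
      have hθ1 : θ ≤ 1/2 := min_le_left _ _
      have hθ2 : θ * (L + ε) ≤ ε / 4 := by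
        have : θ ≤ ε / (4 * (L + ε)) := min_le_right _ _
        calc θ * (L + ε) ≤ ε / (4 * (L + ε)) * (L + ε) := by gcongr
          _ = ε / 4 := by field_simp
      have hσabs : |σ| = 1 := by rcases hσ with rfl | rfl <;> simp
      -- the point P = (x + σ ε/2, v + θ ε/2), and Q = (1-θ) (x', v) + θ (x + σ ε/2, v + ε/2)
      have hP : (x + σ * (ε / 2), v + θ * (ε / 2)) ∈ S := by
        apply hnear
        · rw [abs_mul, hσabs, one_mul, abs_of_pos (by linarith)]; linarith
        · rw [abs_of_pos (by positivity)]; nlinarith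
      have hP' : (x + σ * (ε / 2), v + (ε / 2)) ∈ S := by
        apply hnear
        · rw [abs_mul, hσabs, one_mul, abs_of_pos (by linarith)]; linarith
        · rw [abs_of_pos (by positivity)]; linarith
      have hQ : ((1 - θ) * x' + θ * (x + σ * (ε / 2)), v + θ * (ε / 2)) ∈ S := by
        have := hc hx' hP' (by linarith : (0:ℝ) ≤ 1 - θ) hθ0.le (by ring)
        convert this using 1
        ext
        · simp
        · simp; ring
      -- the distance is (1-θ)(L + ε/2) ≥ L ≥ l
      have hdist : l ≤ (1 - θ) * (L + ε / 2) := by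
        have : θ * (L + ε / 2) ≤ θ * (L + ε) := by gcongr; linarith
        nlinarith
      -- rescale to exactly l : take the point on the chord
      have hchord : ∀ a : ℝ, 0 ≤ a → a ≤ (1 - θ) * (L + ε / 2) →
          (x + σ * (ε / 2) - σ * a, v + θ * (ε / 2)) ∈ S := by
        intro a ha0 ha1
        have hpos : 0 < (1 - θ) * (L + ε / 2) := by
          apply mul_pos <;> linarith
        set τ := a / ((1 - θ) * (L + ε / 2)) with hτ
        have hτ0 : 0 ≤ τ := by positivity
        have hτ1 : τ ≤ 1 := by rw [hτ, div_le_one hpos]; exact ha1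
        have := hc hP hQ (by linarith : (0:ℝ) ≤ 1 - τ) hτ0 (by ring)
        convert this using 1
        have hτe : τ * ((1 - θ) * (L + ε / 2)) = a := by rw [hτ, div_mul_cancel₀ _ hpos.ne']
        have hxx : x - x' = σ * L := by rw [hL, ← mul_assoc, hσ2, one_mul]
        ext
        · simp only [Prod.smul_mk, Prod.mk_add_mk, smul_eq_mul]
          have : x' = x - σ * L := by linarith
          rw [this, ← hτe]
          ring
        · simp only [Prod.smul_mk, Prod.mk_add_mk, smul_eq_mul]
          ring
      have hl' := hchord l hl.le hdist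
      have h00 := hchord 0 le_rfl (by linarith)
      rw [mul_zero, sub_zero] at h00
      have hup : v + θ * (ε / 2) ≤ w := by
        rcases hσ with rfl | rfl
        · refine hwmax _ _ h00 ?_
          simpa using hl'
        · refine hwmax _ _ hl' ?_
          have e : x + -1 * (ε / 2) - -1 * l - l = x + -1 * (ε / 2) := by ring
          rw [e]; exact h00
      have : 0 < θ * (ε / 2) := by positivity
      linarith
    rcases le_total 0 (x - x') with h | h
    · exact hgo 1 (Or.inl rfl) (by linarith)
    · exact hgo (-1) (Or.inr rfl) (by linarith)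
  -- the case j ≥ 0
  have hmain : ∀ i j : ℤ, 0 ≤ j → ¬ (i = 0 ∧ j = 0) →
      ((i : ℝ) * l + j * s, (j : ℝ) * w) ∉ interior S := by
    intro i j hj hij hmem
    rcases hj.eq_or_lt with h | h
    · -- j = 0
      subst h
      have hi : i ≠ 0 := fun hi => hij ⟨hi, rfl⟩
      simp only [Int.cast_zero, zero_mul, add_zero] at hmem
      obtain ⟨ε, hε, hb⟩ := Metric.isOpen_iff.1 isOpen_interior _ hmem
      have hnear : ∀ a : ℝ, |a| < ε → ((i : ℝ) * l + a, (0 : ℝ)) ∈ S := by
        intro a ha
        apply interior_subset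
        apply hb
        rw [Metric.mem_ball, dist_eq_norm, Prod.norm_def]
        simpa [hε] using ha
      rcases lt_or_gt_of_ne hi with hi' | hi'
      · have h1 := hsym _ (hnear (-(ε/2)) (by rw [abs_neg, abs_of_pos] <;> linarith))
        have h2 := hlmax (-((i : ℝ) * l + -(ε/2))) (by simpa using h1)
        have : (i : ℝ) ≤ -1 := by exact_mod_cast (by omega : i ≤ -1)
        nlinarith
      · have h2 := hlmax _ (hnear (ε/2) (by rw [abs_of_pos] <;> linarith))
        have : (1 : ℝ) ≤ i := by exact_mod_cast (by omega : 1 ≤ i)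
        nlinarith
    · rcases eq_or_ne j 1 with rfl | hj1
      · -- j = 1
        simp only [Int.cast_one, one_mul] at hmem
        rcases le_or_gt 0 i with hi | hi
        · have hi' : (0 : ℝ) ≤ i := by exact_mod_cast hi
          refine key _ (s - l) w le_rfl hmem hsw' ?_
          rw [abs_of_nonneg (by nlinarith)]
          nlinarith
        · have hi' : (i : ℝ) ≤ -1 := by exact_mod_cast (by omega : i ≤ -1)
          refine key _ s w le_rfl hmem hsw ?_
          rw [abs_of_nonpos (by nlinarith)]
          nlinarith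
      · -- j ≥ 2
        have hj2 : (2 : ℝ) ≤ j := by exact_mod_cast (by omega : 2 ≤ j)
        have hj0 : (0 : ℝ) < j := by linarith
        set x := (i : ℝ) * l + j * s with hx
        have hα : 0 < (1 : ℝ) / j := by positivity
        have hβ : 0 ≤ 1 - (1 : ℝ) / j := by
          rw [sub_nonneg, div_le_one hj0]; linarith
        have h1 : (1 / (j:ℝ) * x + (1 - 1 / (j:ℝ)) * l, w) ∈ interior S := by
          have := hc.combo_interior_self_mem_interior hmem hlS hα hβ (by ring)
          convert this using 1
          ext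
          · simp
          · simp only [Prod.smul_mk, Prod.mk_add_mk, smul_eq_mul]; field_simp; ring
        have h2 : (1 / (j:ℝ) * x + (1 - 1 / (j:ℝ)) * (-l), w) ∈ S := by
          have := hc (interior_subset hmem) hnegl hα.le hβ (by ring)
          convert this using 1
          ext
          · simp
          · simp only [Prod.smul_mk, Prod.mk_add_mk, smul_eq_mul]; field_simp; ring
        refine key _ _ w le_rfl h1 h2 ?_
        have h3 : (1 : ℝ) / j ≤ 1 / 2 := by
          apply one_div_le_one_div_of_le <;> linarith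
        have e : 1 / (j:ℝ) * x + (1 - 1 / (j:ℝ)) * l - (1 / (j:ℝ) * x + (1 - 1 / (j:ℝ)) * (-l))
            = 2 * (1 - 1 / (j:ℝ)) * l := by ring
        rw [e, abs_of_nonneg (by positivity)]
        nlinarith
  refine ⟨l, w, s, hl, hw, hlS, hsw, hsw', fun i j hij => ?_⟩
  rcases le_or_gt 0 j with hj | hj
  · exact hmain i j hj hij
  · intro hmem
    refine hmain (-i) (-j) (by omega) (by omega) ?_
    have hsymi : ∀ p ∈ interior S, -p ∈ interior S := by
      intro p hp
      have hsub : {x : ℝ × ℝ | -x ∈ interior S} ⊆ interior S :=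
        interior_maximal (fun x hx => by simpa using hsym _ (interior_subset hx))
          (isOpen_interior.preimage continuous_neg)
      exact hsub (show - -p ∈ interior S by rwa [neg_neg])
    have := hsymi _ hmem
    convert this using 1
    ext
    · simp; ring
    · simp
end Pool.Agent.TH29.DL
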