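import Pool.Agent.TH29.DL.Mid
import Pool.Agent.TH29.DL.Free
import Pool.Agent.TH29.DL.Planar
import Pool.Agent.H349R2.Tet.Pack
import Pool.Agent.H349R2.Tet.Dens1

/-!
# The double lattice
-/

namespace Pool.Agent.TH29.DL

open MeasureTheory Set
open scoped ENNReal Pointwise
open Pool.Agent.H349R2.Tet (V tr lat dt dens Bl)

/-- the body `v - A` -/
def refl (v : V) (A : Set V) : Set V := (fun x => v - x) '' A

/-- `b` is a basis of `ℝ³`, and the bodies `A + u`, `v - A + u`, `u` in the lattice generated by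
`b`, have pairwise disjoint interiors -/
def DoublePacks (A : Set V) (v : V) (b : Fin 3 → V) : Prop :=
  LinearIndependent ℝ b ∧
  (∀ u ∈ lat b, ∀ u' ∈ lat b, u ≠ u' → Disjoint (interior (tr A u)) (interior (tr A u'))) ∧
  (∀ u ∈ lat b, ∀ u' ∈ lat b, u ≠ u' →
    Disjoint (interior (tr (refl v A) u)) (interior (tr (refl v A) u'))) ∧
  ∀ u ∈ lat b, ∀ u' ∈ lat b, Disjoint (interior (tr A u)) (interior (tr (refl v A) u'))

theorem interior_refl (v : V) (A : Set V) : interior (refl v A) = refl v (interior A) := by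
  have h1 : refl v A = (Homeomorph.subLeft v) '' A := rfl
  rw [h1, ← Homeomorph.image_interior]
  rfl

/-- the horizontal part of the difference body -/
def SS (A : Set V3) : Set (ℝ × ℝ) := {p | (![p.1, p.2, 0] : V3) ∈ A - A}

theorem SS_cont : Continuous (fun p : ℝ × ℝ => (![p.1, p.2, 0] : V3)) := by
  apply continuous_pi
  intro i
  fin_cases i <;> simp <;> fun_prop

theorem SS_compact {A : Set V3} (hA : IsCompact A) : IsCompact (SS A) := by
  have hAA : IsCompact (A - A) := by
    rw [sub_eq_add_neg]; exact hA.add hA.neg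
  have hcl : IsClosed (SS A) := hAA.isClosed.preimage SS_cont
  obtain ⟨R, hR⟩ := hAA.isBounded.subset_closedBall (0 : V3)
  refine (isCompact_closedBall (0 : ℝ × ℝ) (max R 0)).of_isClosed_subset hcl ?_
  intro p hp
  have h1 := hR hp
  rw [mem_closedBall_zero_iff] at h1 ⊢
  have h2 : ∀ j : Fin 3, ‖(![p.1, p.2, 0] : V3) j‖ ≤ R := fun j => (norm_le_pi_norm _ j).trans h1
  rw [Prod.norm_def]
  exact max_le ((h2 0).trans (le_max_left _ _)) ((h2 1).trans (le_max_left _ _))

theorem SS_convex {A : Set V3} (hA : Convex ℝ A) : Convex ℝ (SS A) := by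
  intro x hx y hy a b ha hb hab
  have := (hA.sub hA) hx hy ha hb hab
  show (![(a • x + b • y).1, (a • x + b • y).2, 0] : V3) ∈ A - A
  convert this using 1
  ext i
  fin_cases i <;> simp

theorem SS_symm {A : Set V3} : ∀ p ∈ SS A, -p ∈ SS A := by
  rintro p hp
  obtain ⟨x, hx, y, hy, h⟩ := mem_sub.1 hp
  refine mem_sub.2 ⟨y, hy, x, hx, ?_⟩
  have : (![(-p).1, (-p).2, 0] : V3) = -![p.1, p.2, 0] := by
    ext i; fin_cases i <;> simp
  rw [this, ← h]; abel

/-- horizontal differences of interior points are interior to `SS` -/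
theorem SS_interior {A : Set V3} {x y : V3} (hx : x ∈ interior A) (hy : y ∈ interior A) {a b : ℝ}
    (h : x - y = ![a, b, 0]) : (a, b) ∈ interior (SS A) := by
  have hopen : IsOpen {p : ℝ × ℝ | (![p.1, p.2, 0] : V3) + y ∈ interior A} :=
    isOpen_interior.preimage (SS_cont.add continuous_const)
  refine interior_maximal ?_ hopen ?_
  · intro p hp
    exact mem_sub.2 ⟨_, interior_subset hp, y, interior_subset hy, by simp⟩
  · show (![a, b, 0] : V3) + y ∈ interior A
    rw [← h]; simpa using hx

/-- every convex body in space has a double lattice packing of density at least `1/3` -/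
theorem main {A : Set V} (hA : Convex ℝ A) (hAc : IsCompact A) (hAi : (interior A).Nonempty) :
    ∃ (v : V) (b : Fin 3 → V), DoublePacks A v b ∧ ENNReal.ofReal |dt b| ≤ 6 * volume A := by
  obtain ⟨o, ho⟩ := hAi
  have hne : A.Nonempty := ⟨o, interior_subset ho⟩
  have hc2 : Continuous (fun x : V => x 2) := continuous_apply 2
  obtain ⟨pmin, hpmin, hmin⟩ := hAc.exists_isMinOn hne hc2.continuousOn
  obtain ⟨pmax, hpmax, hmax⟩ := hAc.exists_isMaxOn hne hc2.continuousOn
  set z0 := pmin 2 with hz0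
  set z1 := pmax 2 with hz1
  have hlow : ∀ x ∈ A, z0 ≤ x 2 := fun x hx => hmin hx
  have hupp : ∀ x ∈ A, x 2 ≤ z1 := fun x hx => hmax hx
  -- interior points are strictly between
  have hint : ∀ x ∈ interior A, z0 < x 2 ∧ x 2 < z1 := by
    intro x hx
    obtain ⟨ε, hε, hb⟩ := Metric.isOpen_iff.1 isOpen_interior x hx
    have hmem : ∀ r : ℝ, |r| < ε → x + r • (Pi.single 2 1 : V) ∈ A := by
      intro r hr
      apply interior_subset
      apply hb
      rw [Metric.mem_ball, dist_eq_norm, add_sub_cancel_left, norm_smul, Real.norm_eq_abs]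
      have : ‖(Pi.single 2 1 : V)‖ ≤ 1 := by
        rw [pi_norm_le_iff_of_nonneg zero_le_one]
        intro i; fin_cases i <;> simp
      nlinarith [abs_nonneg r]
    have h1 := hlow _ (hmem (-(ε / 2)) (by rw [abs_neg, abs_of_pos] <;> linarith))
    have h2 := hupp _ (hmem (ε / 2) (by rw [abs_of_pos] <;> linarith))
    simp only [Pi.add_apply, Pi.smul_apply, Pi.single_eq_same, smul_eq_mul, mul_one] at h1 h2
    constructor <;> linarith
  have hz : z0 < z1 := (hint o ho).1.trans (hint o ho).2
  -- the planar lattice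
  have hS0 : (0 : ℝ × ℝ) ∈ interior (SS A) := SS_interior ho ho (by ext i; fin_cases i <;> simp)
  obtain ⟨l, w, s, hl, hw, h1S, h2S, h3S, hlat⟩ :=
    planar (SS A) (SS_compact hAc) (SS_convex hA) SS_symm hS0
  obtain ⟨y1, hy1, x1, hx1, e1⟩ := mem_sub.1 h1S
  obtain ⟨y2, hy2, x2, hx2, e2⟩ := mem_sub.1 h2S
  obtain ⟨y3, hy3, x3, hx3, e3⟩ := mem_sub.1 h3S
  set D := l * w with hD
  have hD0 : 0 < D := mul_pos hl hw
  have comp : ∀ {x y : V} {a b : ℝ}, y - x = (![a, b, 0] : V) → x 2 = y 2 ∧
      hp y - hp x = ![a, b] := by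
    intro x y a b h
    have h0 := congrFun h 0
    have h1 := congrFun h 1
    have h2 := congrFun h 2
    simp at h0 h1 h2
    refine ⟨by linarith, ?_⟩
    ext i
    fin_cases i
    · simp [hp, h0]
    · simp [hp, h1]
  obtain ⟨f1, g1⟩ := comp e1
  obtain ⟨f2, g2⟩ := comp e2
  obtain ⟨f3, g3⟩ := comp e3
  obtain ⟨xm, hxm, hm⟩ := exists_section hA hAc hx1 hy1 hx2 hy2 hx3 hy3 f1 f2 f3 (D := D)
    (by rw [g1, g2]; simp [cr]; rw [abs_of_pos hl, abs_of_pos hw])
    (by rw [g1, g3]; simp [cr]; rw [abs_of_pos hl, abs_of_pos hw])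
    (by
      rw [g2, g3]
      simp only [cr, Matrix.cons_val_zero, Matrix.cons_val_one]
      rw [show s * w - w * (s - l) = D by rw [hD]; ring, abs_of_pos hD0])
  have hm0 := hlow xm hxm
  have hm1 := hupp xm hxm
  -- the two heights
  obtain ⟨t, t', ht0, ht1, hW, hft, hft', hvol⟩ := choose_heights (fun t => volume (sec A t))
    (volume A) hD0 hz hm0 hm1 hm
    (vol_ge_cone hA hAc hm0 hm1 hpmin hpmax rfl rfl hm)
    (fun a b _ ha hb _ ha' hb' => vol_ge_log hA hAc hD0 ha hb hm ha' hb')
  -- free points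
  have hfree : ∀ τ : ℝ, (τ = z0 ∨ τ = z1 ∨ volume (sec A τ) < ENNReal.ofReal (D / 4)) →
      ∃ c : P2, ∀ m n : ℤ, (![c 0 + m * (l / 2) + n * (s / 2), c 1 + n * (w / 2), τ] : V3)
        ∉ interior A := by
    intro τ hτ
    rcases hτ with rfl | rfl | h
    · exact ⟨0, fun m n hmem => by have := (hint _ hmem).1; simp at this⟩
    · exact ⟨0, fun m n hmem => by have := (hint _ hmem).2; simp at this⟩
    · have hli : LinearIndependent ℝ (![![l / 2, 0], ![s / 2, w / 2]] : Fin 2 → P2) := by
        have : (Matrix.of (![![l / 2, 0], ![s / 2, w / 2]] : Fin 2 → P2)).det ≠ 0 := by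
          rw [Matrix.det_fin_two]
          simp
          exact ⟨hl.ne', hw.ne'⟩
        exact Matrix.linearIndependent_rows_of_det_ne_zero this
      let B : Module.Basis (Fin 2) ℝ P2 := basisOfLinearIndependentOfCardEqFinrank hli (by simp)
      have hB : ⇑B = ![![l / 2, 0], ![s / 2, w / 2]] :=
        coe_basisOfLinearIndependentOfCardEqFinrank hli (by simp)
      obtain ⟨c, hc⟩ := exists_free B (sec A τ) (by
        rw [hB]
        have : (Matrix.of (![![l / 2, 0], ![s / 2, w / 2]] : Fin 2 → P2)).det = D / 4 := by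
          rw [Matrix.det_fin_two]
          simp [hD]; ring
        rw [this, abs_of_pos (by positivity)]
        exact h)
      refine ⟨c, fun m n hmem => hc m n ?_⟩
      have := interior_subset hmem
      show (![(c + (m : ℝ) • B 0 + (n : ℝ) • B 1) 0, (c + (m : ℝ) • B 0 + (n : ℝ) • B 1) 1, τ] : V3) ∈ A
      rw [hB]
      convert this using 1
      ext i
      fin_cases i <;> simp [Matrix.vecHead, Matrix.vecTail]
  obtain ⟨c, hc⟩ := hfree t (by tauto)
  obtain ⟨c', hc'⟩ := hfree t' (by tauto)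
  have htt : 0 < t' - t := by linarith
  -- the lattice
  set b : Fin 3 → V := ![![l, 0, 0], ![s, w, 0],
    ![2 * (c' 0 - c 0), 2 * (c' 1 - c 1), 2 * (t' - t)]] with hb
  set v : V := ![2 * c 0, 2 * c 1, 2 * t] with hv
  have hdt : dt b = 2 * (t' - t) * D := by
    rw [hb, dt, Matrix.det_fin_three]
    simp [hD]; ring
  have hdt0 : dt b ≠ 0 := by rw [hdt]; positivity
  have hsum : ∀ z : Fin 3 → ℤ, ∑ i, (z i : ℝ) • b i
      = ![z 0 * l + z 1 * s + z 2 * (2 * (c' 0 - c 0)), z 1 * w + z 2 * (2 * (c' 1 - c 1)),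
        z 2 * (2 * (t' - t))] := by
    intro z
    rw [Fin.sum_univ_three]
    ext i
    fin_cases i <;> simp [hb]
  -- differences of interior points
  have hdiff : ∀ a ∈ interior A, ∀ a' ∈ interior A, a - a' ∈ lat b → a - a' = 0 := by
    rintro a ha a' ha' ⟨z, hz'⟩
    rw [hsum] at hz'
    have h2 := congrFun hz' 2
    simp at h2
    have ha2 := hint a ha
    have ha2' := hint a' ha'
    have hz2 : z 2 = 0 := by
      by_contra hne0
      rcases lt_or_gt_of_ne hne0 with h | h
      · have : (z 2 : ℝ) ≤ -1 := by exact_mod_cast (by omega : z 2 ≤ -1)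
        nlinarith
      · have : (1 : ℝ) ≤ z 2 := by exact_mod_cast (by omega : 1 ≤ z 2)
        nlinarith
    rw [hz2] at hz'
    simp only [Int.cast_zero, zero_mul, add_zero] at hz'
    have h3 := SS_interior ha ha' hz'
    by_contra hcon
    refine hlat (z 0) (z 1) ?_ h3
    rintro ⟨h4, h5⟩
    apply hcon
    rw [hz', h4, h5]
    ext i; fin_cases i <;> simp
  have hsub : ∀ u ∈ lat b, ∀ u' ∈ lat b, u - u' ∈ lat b := fun u hu u' hu' =>
    Pool.Agent.H349R2.Tet.pack_sub_mem hu hu'
  refine ⟨v, b, ⟨(Pool.Agent.H349R2.Tet.dt_ne_zero_iff b).1 hdt0, ?_, ?_, ?_⟩, ?_⟩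
  · intro u hu u' hu' hne'
    rw [Pool.Agent.H349R2.Tet.pack_interior_tr, Pool.Agent.H349R2.Tet.pack_interior_tr,
      Set.disjoint_left]
    rintro y ⟨a, ha, rfl⟩ ⟨a', ha', h⟩
    have h' : a' + u' = a + u := h
    have e : a' - a = u - u' := by
      have : a' = a + u - u' := by rw [← h']; abel
      rw [this]; abel
    have := hdiff a' ha' a ha (by rw [e]; exact hsub u hu u' hu')
    rw [e] at this
    exact hne' (sub_eq_zero.1 this)
  · intro u hu u' hu' hne'
    rw [Pool.Agent.H349R2.Tet.pack_interior_tr, Pool.Agent.H349R2.Tet.pack_interior_tr,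
      interior_refl, Set.disjoint_left]
    rintro y ⟨_, ⟨a, ha, rfl⟩, rfl⟩ ⟨_, ⟨a', ha', rfl⟩, h⟩
    have h' : v - a' + u' = v - a + u := h
    have e : a - a' = u - u' := by
      have : u = v - a' + u' - v + a := by rw [h']; abel
      rw [this]; abel
    have := hdiff a ha a' ha' (by rw [e]; exact hsub u hu u' hu')
    rw [e] at this
    exact hne' (sub_eq_zero.1 this)
  · intro u hu u' hu'
    rw [Pool.Agent.H349R2.Tet.pack_interior_tr, Pool.Agent.H349R2.Tet.pack_interior_tr,
      interior_refl, Set.disjoint_left]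
    rintro y ⟨a, ha, rfl⟩ ⟨_, ⟨a', ha', rfl⟩, h⟩
    have h' : v - a' + u' = a + u := h
    have e : a + a' = v + (u' - u) := by
      have : a = v - a' + u' - u := by rw [h']; abel
      rw [this]; abel
    obtain ⟨z, hz'⟩ := hsub u' hu' u hu
    rw [hsum] at hz'
    have hmid : (1 / 2 : ℝ) • a + (1 / 2 : ℝ) • a' ∈ interior A :=
      hA.interior ha ha' (by norm_num) (by norm_num) (by norm_num)
    have hmid' : (1 / 2 : ℝ) • a + (1 / 2 : ℝ) • a'
        = ![c 0 + z 0 * (l / 2) + z 1 * (s / 2) + z 2 * (c' 0 - c 0),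
            c 1 + z 1 * (w / 2) + z 2 * (c' 1 - c 1), t + z 2 * (t' - t)] := by
      rw [← smul_add, e, hz']
      ext i
      fin_cases i <;> simp [hv] <;> ring
    rw [hmid'] at hmid
    have h2 := hint _ hmid
    simp only [Matrix.cons_val] at h2
    have hz2 : z 2 = 0 ∨ z 2 = 1 := by
      by_contra hcon
      have : z 2 ≤ -1 ∨ 2 ≤ z 2 := by omega
      rcases this with h | h
      · have : (z 2 : ℝ) ≤ -1 := by exact_mod_cast h
        nlinarith
      · have : (2 : ℝ) ≤ z 2 := by exact_mod_cast h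
        nlinarith
    rcases hz2 with h | h
    · apply hc (z 0) (z 1)
      rw [h] at hmid
      convert hmid using 1
      ext i; fin_cases i <;> simp
    · apply hc' (z 0) (z 1)
      rw [h] at hmid
      convert hmid using 1
      ext i; fin_cases i <;> simp <;> ring
  · rw [hdt, abs_of_pos (by positivity)]
    exact hvol

/-- the density `δ_{L*}`: the supremum of the densities of the packings
`{(A ∪ (v - A)) + u}`, `u` in a lattice -/
noncomputable def deltaLStar (A : Set V) : ℝ≥0∞ :=
  ⨆ (v : V) (b : Fin 3 → V) (_ : DoublePacks A v b), dens (A ∪ refl v A) b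

theorem vol_union {A : Set V} (hA : Convex ℝ A) (hAc : IsCompact A) {v : V} {b : Fin 3 → V}
    (h : DoublePacks A v b) : volume (A ∪ refl v A) = 2 * volume A := by
  have hr : Convex ℝ (refl v A) := by
    have : refl v A = (fun x => v + x) '' (-A) := by
      ext x
      constructor
      · rintro ⟨a, ha, rfl⟩; exact ⟨-a, by simpa using ha, by simp [sub_eq_add_neg]⟩
      · rintro ⟨a, ha, rfl⟩; exact ⟨-a, ha, by simp⟩
    rw [this]
    exact hA.neg.translate v
  have hrc : IsCompact (refl v A) := hAc.image (continuous_const.sub continuous_id)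
  have hvr : volume (refl v A) = volume A := by
    have : refl v A = (fun x => v - x) ⁻¹' A := by
      ext x
      constructor
      · rintro ⟨a, ha, rfl⟩; simpa using ha
      · intro hx; exact ⟨v - x, hx, by simp⟩
    rw [this]
    exact (Measure.measurePreserving_sub_left volume v).measure_preimage hAc.measurableSet.nullMeasurableSet
  have hd : Disjoint (interior A) (interior (refl v A)) := by
    have h0 := h.2.2.2 0 (Pool.Agent.H349R2.Tet.pack_zero_mem b) 0
      (Pool.Agent.H349R2.Tet.pack_zero_mem b)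
    have e : ∀ B : Set V, tr B 0 = B := by
      intro B; ext x; simp [tr]
    rwa [e, e] at h0
  have hnull : volume (A ∩ refl v A) = 0 := by
    have hsub : A ∩ refl v A ⊆ frontier A ∪ frontier (refl v A) := by
      rintro x ⟨hx1, hx2⟩
      by_cases h1 : x ∈ interior A
      · right
        refine ⟨subset_closure hx2, fun h2 => ?_⟩
        exact Set.disjoint_left.1 hd h1 h2
      · left
        exact ⟨subset_closure hx1, h1⟩
    refine measure_mono_null hsub (measure_union_null ?_ ?_)
    · exact hA.addHaar_frontier volume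
    · exact hr.addHaar_frontier volume
  have := measure_union_add_inter (μ := volume) A hrc.measurableSet
  rw [hnull, add_zero, hvr] at this
  rw [this, two_mul]

/-- every convex body in space has a double lattice packing of density at least `1/3` -/
theorem exists_dens_ge {A : Set V} (hA : Convex ℝ A) (hAc : IsCompact A)
    (hAi : (interior A).Nonempty) :
    ∃ (v : V) (b : Fin 3 → V), DoublePacks A v b ∧ 1 / 3 ≤ dens (A ∪ refl v A) b := by
  obtain ⟨v, b, hp, hb⟩ := main hA hAc hAi
  refine ⟨v, b, hp, ?_⟩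
  have hrc : IsCompact (refl v A) := hAc.image (continuous_const.sub continuous_id)
  have h1 : dens (A ∪ refl v A) b = 2 * volume A / ENNReal.ofReal |dt b| := by
    rw [Pool.Agent.H349R2.Tet.dens_eq b hp.1 _ (hAc.union hrc), vol_union hA hAc hp]
  rw [h1]
  have hdt0 : dt b ≠ 0 := (Pool.Agent.H349R2.Tet.dt_ne_zero_iff b).2 hp.1
  rw [ENNReal.le_div_iff_mul_le (Or.inl (by simpa using hdt0)) (Or.inl ENNReal.ofReal_ne_top)]
  calc 1 / 3 * ENNReal.ofReal |dt b| ≤ 1 / 3 * (6 * volume A) := by gcongr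
    _ = (1 / 3 * 6) * volume A := by rw [mul_assoc]
    _ = 2 * volume A := by
      congr 1
      rw [one_div, ← ENNReal.ofReal_ofNat 3, ← ENNReal.ofReal_inv_of_pos (by norm_num),
        ← ENNReal.ofReal_ofNat 6, ← ENNReal.ofReal_mul (by norm_num), ← ENNReal.ofReal_ofNat 2]
      norm_num

/-- every convex body in space satisfies `δ_{L*} ≥ 1/3` -/
theorem deltaLStar_ge {A : Set V} (hA : Convex ℝ A) (hAc : IsCompact A)
    (hAi : (interior A).Nonempty) : 1 / 3 ≤ deltaLStar A := by
  obtain ⟨v, b, hp, h2⟩ := exists_dens_ge hA hAc hAi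
  refine h2.trans ?_
  exact le_iSup_of_le v (le_iSup_of_le b (le_iSup_of_le hp le_rfl))

end Pool.Agent.TH29.DL
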