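import Pool.Agent.TH29.DL.Choose

/-!
# A large section, and the volume of the body
-/

namespace Pool.Agent.TH29.DL

open MeasureTheory Set
open scoped ENNReal

/-- horizontal part -/
def hp (x : V3) : P2 := ![x 0, x 1]

theorem hp_mem {K : Set V3} {x : V3} (hx : x ∈ K) : hp x ∈ sec K (x 2) := by
  show (![(hp x) 0, (hp x) 1, x 2] : V3) ∈ K
  have : (![(hp x) 0, (hp x) 1, x 2] : V3) = x := by
    ext i; fin_cases i <;> rfl
  rwa [this]

theorem cr_comb (u a b : P2) (α β : ℝ) : cr u (α • a + β • b) = α * cr u a + β * cr u b := by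
  simp [cr]; ring

/-- the middle one of three horizontal chords -/
theorem mid {K : Set V3} (hK : Convex ℝ K) (hKc : IsCompact K) {x1 y1 x2 y2 x3 y3 : V3}
    (hx1 : x1 ∈ K) (hy1 : y1 ∈ K) (hx2 : x2 ∈ K) (hy2 : y2 ∈ K) (hx3 : x3 ∈ K) (hy3 : y3 ∈ K)
    (e1 : x1 2 = y1 2) (e2 : x2 2 = y2 2) (e3 : x3 2 = y3 2)
    (h12 : x1 2 ≤ x2 2) (h23 : x2 2 ≤ x3 2) {D : ℝ}
    (hc1 : |cr (hp y2 - hp x2) (hp y1 - hp x1)| = D)
    (hc3 : |cr (hp y2 - hp x2) (hp y3 - hp x3)| = D) :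
    ENNReal.ofReal (D / 2) ≤ volume (sec K (x2 2)) := by
  obtain ⟨θ, hθ0, hθ1, hθ⟩ : ∃ θ : ℝ, 0 ≤ θ ∧ θ ≤ 1 ∧ (1 - θ) * x1 2 + θ * x3 2 = x2 2 := by
    rcases (h12.trans h23).eq_or_lt with h | h
    · refine ⟨0, le_rfl, zero_le_one, ?_⟩
      linarith
    · have hpos : 0 < x3 2 - x1 2 := by linarith
      refine ⟨(x2 2 - x1 2) / (x3 2 - x1 2), div_nonneg (by linarith) hpos.le,
        (div_le_one hpos).2 (by linarith), ?_⟩
      have : (x2 2 - x1 2) / (x3 2 - x1 2) * (x3 2 - x1 2) = x2 2 - x1 2 :=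
        div_mul_cancel₀ _ hpos.ne'
      nlinarith
  have m1 : hp x1 ∈ sec K (x1 2) := hp_mem hx1
  have m1' : hp y1 ∈ sec K (x1 2) := by rw [e1]; exact hp_mem hy1
  have m2 : hp x2 ∈ sec K (x2 2) := hp_mem hx2
  have m2' : hp y2 ∈ sec K (x2 2) := by rw [e2]; exact hp_mem hy2
  have m3 : hp x3 ∈ sec K (x3 2) := hp_mem hx3
  have m3' : hp y3 ∈ sec K (x3 2) := by rw [e3]; exact hp_mem hy3
  have go : ∀ r s : P2, r ∈ sec K (x3 2) → s ∈ sec K (x3 2) →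
      cr (hp y2 - hp x2) (s - r) = cr (hp y2 - hp x2) (hp y1 - hp x1) →
      ENNReal.ofReal (D / 2) ≤ volume (sec K (x2 2)) := by
    intro r s hr hs hcr
    have a1 := sec_comb hK hθ0 hθ1 m1 hr
    have a2 := sec_comb hK hθ0 hθ1 m1' hs
    rw [hθ] at a1 a2
    have h := area_cross (sec K (x2 2)) (sec_convex hK _) (sec_compact hKc _) m2 m2' a1 a2
    have e : (1 - θ) • hp y1 + θ • s - ((1 - θ) • hp x1 + θ • r)
        = (1 - θ) • (hp y1 - hp x1) + θ • (s - r) := by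
      rw [smul_sub, smul_sub]; abel
    rw [e, cr_comb, hcr] at h
    have e' : (1 - θ) * cr (hp y2 - hp x2) (hp y1 - hp x1) + θ * cr (hp y2 - hp x2) (hp y1 - hp x1)
        = cr (hp y2 - hp x2) (hp y1 - hp x1) := by ring
    rw [e', hc1] at h
    exact h
  rcases abs_eq_abs.1 (hc3.trans hc1.symm) with h | h
  · exact go _ _ m3 m3' h
  · refine go _ _ m3' m3 ?_
    have : cr (hp y2 - hp x2) (hp x3 - hp y3) = - cr (hp y2 - hp x2) (hp y3 - hp x3) := by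
      simp [cr]; ring
    rw [this, h, neg_neg]

theorem cr_abs_comm (a b : P2) : |cr a b| = |cr b a| := by
  rw [← abs_neg]; congr 1; simp [cr]; ring

/-- three horizontal chords whose directions have equal pairwise cross products give a section of
large area -/
theorem exists_section {K : Set V3} (hK : Convex ℝ K) (hKc : IsCompact K) {x1 y1 x2 y2 x3 y3 : V3}
    (hx1 : x1 ∈ K) (hy1 : y1 ∈ K) (hx2 : x2 ∈ K) (hy2 : y2 ∈ K) (hx3 : x3 ∈ K) (hy3 : y3 ∈ K)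
    (e1 : x1 2 = y1 2) (e2 : x2 2 = y2 2) (e3 : x3 2 = y3 2) {D : ℝ}
    (h12 : |cr (hp y1 - hp x1) (hp y2 - hp x2)| = D)
    (h13 : |cr (hp y1 - hp x1) (hp y3 - hp x3)| = D)
    (h23 : |cr (hp y2 - hp x2) (hp y3 - hp x3)| = D) :
    ∃ x ∈ K, ENNReal.ofReal (D / 2) ≤ volume (sec K (x 2)) := by
  have h21 := (cr_abs_comm _ _).trans h12
  have h31 := (cr_abs_comm _ _).trans h13
  have h32 := (cr_abs_comm _ _).trans h23
  rcases le_total (x1 2) (x2 2) with a | a <;> rcases le_total (x2 2) (x3 2) with b | b <;>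
    rcases le_total (x1 2) (x3 2) with c | c
  · exact ⟨x2, hx2, mid hK hKc hx1 hy1 hx2 hy2 hx3 hy3 e1 e2 e3 a b h21 h23⟩
  · exact ⟨x2, hx2, mid hK hKc hx1 hy1 hx2 hy2 hx3 hy3 e1 e2 e3 a b h21 h23⟩
  · exact ⟨x3, hx3, mid hK hKc hx1 hy1 hx3 hy3 hx2 hy2 e1 e3 e2 c b h31 h32⟩
  · exact ⟨x1, hx1, mid hK hKc hx3 hy3 hx1 hy1 hx2 hy2 e3 e1 e2 c a h13 h12⟩
  · exact ⟨x1, hx1, mid hK hKc hx2 hy2 hx1 hy1 hx3 hy3 e2 e1 e3 a c h12 h13⟩
  · exact ⟨x3, hx3, mid hK hKc hx2 hy2 hx3 hy3 hx1 hy1 e2 e3 e1 b c h32 h31⟩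
  · exact ⟨x2, hx2, mid hK hKc hx3 hy3 hx2 hy2 hx1 hy1 e3 e2 e1 b a h23 h21⟩
  · exact ⟨x2, hx2, mid hK hKc hx3 hy3 hx2 hy2 hx1 hy1 e3 e2 e1 b a h23 h21⟩

/-- lower bounds of the volume -/
theorem vol_ge_cone {K : Set V3} (hK : Convex ℝ K) (hKc : IsCompact K) {z0 z1 tm D : ℝ}
    (h0 : z0 ≤ tm) (h1 : tm ≤ z1) {p q : V3} (hp' : p ∈ K) (hq : q ∈ K) (hpz : p 2 = z0)
    (hqz : q 2 = z1) (hm : ENNReal.ofReal (D / 2) ≤ volume (sec K tm)) :
    ENNReal.ofReal ((z1 - z0) * D / 6) ≤ volume K := by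
  have hc := cone (volume : Measure P2) (CC K) (CC_convex hK) (CC_meas hKc) z0 tm z1 h0 h1
    (hp p) (hp q) (by have := hp_mem hp'; rw [hpz] at this; exact this)
    (by have := hp_mem hq; rw [hqz] at this; exact this)
  rw [vol_CC hKc]
  refine le_trans ?_ hc
  rw [sl_CC]
  calc ENNReal.ofReal ((z1 - z0) * D / 6) = ENNReal.ofReal ((z1 - z0) / 3) * ENNReal.ofReal (D / 2) := by
        rw [← ENNReal.ofReal_mul (by linarith)]; congr 1; ring
    _ ≤ ENNReal.ofReal ((z1 - z0) / 3) * volume (sec K tm) := by gcongr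
    _ ≤ _ := by
      have hf : Module.finrank ℝ P2 = 2 := by simp
      rw [hf]
      refine mul_le_mul' (ENNReal.ofReal_le_ofReal (le_of_eq ?_)) le_rfl
      norm_num

theorem vol_ge_log {K : Set V3} (hK : Convex ℝ K) (hKc : IsCompact K) {a b tm D : ℝ} (hD : 0 < D)
    (ha : a ≤ tm) (hb : tm ≤ b) (hm : ENNReal.ofReal (D / 2) ≤ volume (sec K tm))
    (ha' : ENNReal.ofReal (D / 4) ≤ volume (sec K a))
    (hb' : ENNReal.ofReal (D / 4) ≤ volume (sec K b)) :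
    ENNReal.ofReal (0.336 * (b - a) * D) ≤ volume K := by
  have h1 := log_int (fun t => volume (sec K t)) (fun s t θ h0 h1 => sec_log hK hKc h0 h1) ha hD ha' hm
  have h2 := log_int' (fun t => volume (sec K t)) (fun s t θ h0 h1 => sec_log hK hKc h0 h1) hb hD hb' hm
  rw [vol_CC hKc]
  refine le_trans ?_ (prod_ge (volume : Measure P2) (CC K) (CC_meas hKc) a tm b ha hb)
  refine le_trans (le_of_eq ?_) (add_le_add h1 h2)
  rw [← ENNReal.ofReal_add (by apply mul_nonneg _ hD.le; nlinarith)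
    (by apply mul_nonneg _ hD.le; nlinarith)]
  congr 1
  ring

end Pool.Agent.TH29.DL
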