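import Pool.Agent.TH29.DL.Area
import Pool.Agent.W597.EH_BM

/-!
# Horizontal sections of a convex body in space
-/

namespace Pool.Agent.TH29.DL

open MeasureTheory Set
open scoped ENNReal Pointwise

abbrev V3 := Fin 3 → ℝ

/-- the section at height `t` -/
def sec (K : Set V3) (t : ℝ) : Set P2 := {p | ![p 0, p 1, t] ∈ K}

/-- the body in the coordinates (height, horizontal part) -/
def CC (K : Set V3) : Set (ℝ × P2) := {z | ![z.2 0, z.2 1, z.1] ∈ K}

theorem cont_vec : Continuous (fun z : ℝ × P2 => (![z.2 0, z.2 1, z.1] : V3)) := by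
  apply continuous_pi
  intro i
  fin_cases i <;> simp <;> fun_prop

theorem sl_CC (K : Set V3) (t : ℝ) : sl (CC K) t = sec K t := rfl

theorem vec_comb (a b : ℝ) (p q : P2) (s t : ℝ) :
    (![(a • p + b • q) 0, (a • p + b • q) 1, a * s + b * t] : V3)
      = a • ![p 0, p 1, s] + b • ![q 0, q 1, t] := by
  ext i
  fin_cases i <;> simp

theorem CC_convex {K : Set V3} (hK : Convex ℝ K) : Convex ℝ (CC K) := by
  intro x hx y hy a b ha hb hab
  have := hK hx hy ha hb hab
  rw [← vec_comb] at this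
  exact this

theorem sec_convex {K : Set V3} (hK : Convex ℝ K) (t : ℝ) : Convex ℝ (sec K t) := by
  intro x hx y hy a b ha hb hab
  have := hK hx hy ha hb hab
  rw [← vec_comb, ← add_mul, hab, one_mul] at this
  exact this

theorem sec_comb {K : Set V3} (hK : Convex ℝ K) {s t θ : ℝ} (h0 : 0 ≤ θ) (h1 : θ ≤ 1) {x y : P2}
    (hx : x ∈ sec K s) (hy : y ∈ sec K t) :
    (1 - θ) • x + θ • y ∈ sec K ((1 - θ) * s + θ * t) := by
  have := hK hx hy (by linarith : (0:ℝ) ≤ 1 - θ) h0 (by ring)
  rw [← vec_comb] at this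
  exact this

theorem CC_meas {K : Set V3} (hK : IsCompact K) : MeasurableSet (CC K) :=
  (hK.isClosed.preimage cont_vec).measurableSet

theorem sec_compact {K : Set V3} (hK : IsCompact K) (t : ℝ) : IsCompact (sec K t) := by
  have hcl : IsClosed (sec K t) := by
    have : Continuous (fun p : P2 => (![p 0, p 1, t] : V3)) := by
      exact cont_vec.comp (continuous_const.prodMk continuous_id)
    exact hK.isClosed.preimage this
  obtain ⟨R, hR⟩ := hK.isBounded.subset_closedBall (0 : V3)
  refine (isCompact_closedBall (0 : P2) (max R 0)).of_isClosed_subset hcl ?_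
  intro p hp
  have h1 := hR hp
  rw [mem_closedBall_zero_iff] at h1 ⊢
  rw [pi_norm_le_iff_of_nonneg (le_max_right _ _)]
  intro i
  have h2 : ∀ j : Fin 3, ‖(![p 0, p 1, t] : V3) j‖ ≤ R := fun j => (norm_le_pi_norm _ j).trans h1
  fin_cases i
  · exact (h2 0).trans (le_max_left _ _)
  · exact (h2 1).trans (le_max_left _ _)

theorem vol_CC {K : Set V3} (hK : IsCompact K) :
    volume K = ((volume : Measure ℝ).prod (volume : Measure P2)) (CC K) := by
  have hmp := volume_preserving_piFinSuccAbove (fun _ : Fin 3 => ℝ) 2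
  have h := hmp.measure_preimage (CC_meas hK).nullMeasurableSet
  have e : (MeasurableEquiv.piFinSuccAbove (fun _ : Fin 3 => ℝ) 2) ⁻¹' (CC K) = K := by
    ext f
    have : (![f 0, f 1, f 2] : V3) = f := by ext i; fin_cases i <;> rfl
    constructor
    · intro h
      have h' : (![f 0, f 1, f 2] : V3) ∈ K := h
      rwa [this] at h'
    · intro h
      show (![f 0, f 1, f 2] : V3) ∈ K
      rwa [this]
  rw [e] at h
  exact h

/-- multiplicative Brunn-Minkowski inequality for sections -/
theorem sec_log {K : Set V3} (hK : Convex ℝ K) (hKc : IsCompact K) {s t θ : ℝ}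
    (h0 : 0 < θ) (h1 : θ < 1) :
    (volume (sec K s)) ^ (1 - θ) * (volume (sec K t)) ^ θ ≤ volume (sec K ((1 - θ) * s + θ * t)) :=
  Pool.Agent.W597.EHBM.bm_ennreal θ h0 h1 _ _ _ (sec_compact hKc s) (sec_compact hKc t)
    (sec_compact hKc _) fun _ hx _ hy => sec_comb hK h0.le h1.le hx hy

/-- the integral of a log-concave function with values at least `D/4` and `D/2` at the ends -/
theorem log_int (f : ℝ → ℝ≥0∞)
    (hf : ∀ s t θ : ℝ, 0 < θ → θ < 1 → (f s) ^ (1 - θ) * (f t) ^ θ ≤ f ((1 - θ) * s + θ * t))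
    {a m D : ℝ} (ham : a ≤ m) (hD : 0 < D) (ha : ENNReal.ofReal (D / 4) ≤ f a)
    (hm : ENNReal.ofReal (D / 2) ≤ f m) :
    ENNReal.ofReal (0.336 * (m - a) * D) ≤ ∫⁻ t in Ioo a m, f t := by
  rcases ham.eq_or_lt with rfl | ham'
  · simp
  have hL : 0 < m - a := by linarith
  have key := lint_ge ham (fun t => D / 4 * ((t - a) + 0.69 / (2 * (m - a)) * (t - a) ^ 2))
    (fun t => D / 4 * (1 + 0.69 / (m - a) * (t - a))) ?_ ?_ ?_ f ?_
  · refine le_trans (ENNReal.ofReal_le_ofReal ?_) key
    have e : D / 4 * ((m - a) + 0.69 / (2 * (m - a)) * (m - a) ^ 2)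
        - D / 4 * ((a - a) + 0.69 / (2 * (m - a)) * (a - a) ^ 2)
        = 0.33625 * (m - a) * D := by
      field_simp
      ring
    rw [e]
    nlinarith [mul_pos hL hD]
  · intro t _
    have h1 : HasDerivAt (fun t : ℝ => t - a) 1 t := (hasDerivAt_id t).sub_const a
    have h2 := (h1.fun_pow 2).const_mul (0.69 / (2 * (m - a)))
    have h3 := (h1.add h2).const_mul (D / 4)
    refine h3.congr_deriv ?_
    simp only [Nat.cast_ofNat]
    field_simp
    ring
  · fun_prop
  · intro t ht
    have : 0 < t - a := by linarith [ht.1]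
    positivity
  · intro t ht
    set θ := (t - a) / (m - a) with hθ
    have hθ0 : 0 < θ := div_pos (by linarith [ht.1]) hL
    have hθ1 : θ < 1 := by rw [hθ, div_lt_one hL]; linarith [ht.2]
    have hte : (1 - θ) * a + θ * m = t := by
      have : θ * (m - a) = t - a := by rw [hθ, div_mul_cancel₀ _ hL.ne']
      nlinarith
    have h1 := hf a m θ hθ0 hθ1
    rw [hte] at h1
    refine le_trans ?_ h1
    have h2 : ENNReal.ofReal ((D / 4) ^ (1 - θ) * (D / 2) ^ θ) ≤ f a ^ (1 - θ) * f m ^ θ := by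
      rw [ENNReal.ofReal_mul (by positivity), ← ENNReal.ofReal_rpow_of_pos (by positivity),
        ← ENNReal.ofReal_rpow_of_pos (by positivity)]
      exact mul_le_mul' (ENNReal.rpow_le_rpow ha (by linarith)) (ENNReal.rpow_le_rpow hm hθ0.le)
    refine le_trans (ENNReal.ofReal_le_ofReal ?_) h2
    have h3 : (D / 4) ^ (1 - θ) * (D / 2) ^ θ = D / 4 * 2 ^ θ := by
      have : D / 2 = (D / 4) * 2 := by ring
      rw [this, Real.mul_rpow (by positivity) (by norm_num), ← mul_assoc,
        ← Real.rpow_add (by positivity)]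
      simp
    rw [h3]
    have h4 : 1 + θ * Real.log 2 ≤ 2 ^ θ := by
      rw [Real.rpow_def_of_pos (by norm_num), mul_comm (Real.log 2) θ]
      linarith [Real.add_one_le_exp (θ * Real.log 2)]
    have h5 : 0.69 * θ ≤ θ * Real.log 2 := by
      have := Real.log_two_gt_d9
      nlinarith
    have h6 : 0.69 / (m - a) * (t - a) = 0.69 * θ := by rw [hθ]; ring
    rw [h6]
    have : (0:ℝ) < D / 4 := by positivity
    nlinarith

theorem log_int' (f : ℝ → ℝ≥0∞)
    (hf : ∀ s t θ : ℝ, 0 < θ → θ < 1 → (f s) ^ (1 - θ) * (f t) ^ θ ≤ f ((1 - θ) * s + θ * t))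
    {b m D : ℝ} (hbm : m ≤ b) (hD : 0 < D) (hb : ENNReal.ofReal (D / 4) ≤ f b)
    (hm : ENNReal.ofReal (D / 2) ≤ f m) :
    ENNReal.ofReal (0.336 * (b - m) * D) ≤ ∫⁻ t in Ioo m b, f t := by
  have h := log_int (fun t => f (-t)) (fun s t θ h0 h1 => by
      have := hf (-s) (-t) θ h0 h1
      convert this using 2
      ring) (a := -b) (m := -m) (D := D) (by linarith) hD (by simpa using hb) (by simpa using hm)
  rw [lint_neg m b f] at h
  rwa [show -m - -b = b - m by ring] at h

end Pool.Agent.TH29.DL
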